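import Pool.Agent.Y603.DW.Ext

/-!
The rate `t^(-1/2)` is optimal for damped waves whose Schrödinger system is observable, even if the
Schrödinger system is observable from every set of times of positive measure (in particular in
arbitrarily short time, with polynomial cost) and the damping operator is an orthogonal projection;
and the decay is not faster than `(1+t)^(-1/2)` at any time.
-/

set_option autoImplicit false

open Filter Topology Set MeasureTheory
open Pool.Agent.W805.DW

namespace Pool.Agent.Results.MP_4ccfbf_an.EveryTimeSet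

variable {H Y : Type} [NormedAddCommGroup H] [InnerProductSpace ℂ H] [CompleteSpace H]
  [NormedAddCommGroup Y] [InnerProductSpace ℂ Y] [CompleteSpace Y]

/-- `‖u(0)‖² ≤ K ∫_E ‖B^* u(t)‖² dt` for all solutions on `[0,T]` of `u' + i A u = 0`. -/
def ObsOn (A : H →ₗ.[ℂ] H) (B : Y →L[ℂ] H) (T : ℝ) (E : Set ℝ) (K : ℝ) : Prop :=
  ∀ u : ℝ → H, IsSchrodingerSol A T u →
    ‖u 0‖ ^ 2 ≤ K * ∫ t in E, ‖ContinuousLinearMap.adjoint B (u t)‖ ^ 2

/-- Observability from every measurable set of times of positive measure. -/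
def ObsAll (A : H →ₗ.[ℂ] H) (B : Y →L[ℂ] H) : Prop :=
  ∀ (T : ℝ) (E : Set ℝ), MeasurableSet E → E ⊆ Icc 0 T → 0 < volume E →
    ∃ K : ℝ, 0 < K ∧ ObsOn A B T E K

/-- `B^* B = 1`, so that `B B^*` is an orthogonal projection. -/
def Isom (B : Y →L[ℂ] H) : Prop := ∀ y : Y, ContinuousLinearMap.adjoint B (B y) = y

/-- Every rate `f` is at least a constant times `(1+t)^(-1/2)`, at every time. -/
def NoBetter (A S : H →ₗ.[ℂ] H) (B : Y →L[ℂ] H) : Prop :=
  ∀ f : ℝ → ℝ, StableAt A S B f → ∃ c : ℝ, 0 < c ∧ ∀ t : ℝ, 0 < t → c / √(1 + t) ≤ |f t|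

/-- The properties of the example which concern the observation. -/
structure Strong (A : H →ₗ.[ℂ] H) (B : Y →L[ℂ] H) : Prop where
  isom : Isom B
  obsAll : ObsAll A B
  cost : ∀ T : ℝ, 0 < T → T ≤ 1 → ObsOn A B T (Ioc 0 T) (18 / T ^ 3)
  observable : ∀ T : ℝ, 0 < T → Observable A B T

theorem result :
    ∃ (H Y : Type) (_ : NormedAddCommGroup H) (_ : InnerProductSpace ℂ H) (_ : CompleteSpace H)
      (_ : NormedAddCommGroup Y) (_ : InnerProductSpace ℂ Y) (_ : CompleteSpace Y)
      (A S : H →ₗ.[ℂ] H) (B : Y →L[ℂ] H),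
      IsSelfAdjoint A ∧ Nonneg A ∧ Pool.Agent.Helper421.CompactRes.HasCompactResolvent A ∧
      IsSqrt A S ∧ Strong A B ∧ NoBetter A S B ∧
      (∀ α : ℝ, 1 / 2 < α → ¬ StableAt A S B (fun t => t ^ (-α))) := by
  refine ⟨L2 (ℕ × Bool), L2 ℕ, inferInstance, inferInstance, inferInstance, inferInstance,
    inferInstance, inferInstance, AA, SS, B, dop_selfAdjoint _, dop_nonneg _ (fun i => ?_),
    dop_compactResolvent _ (fun i => ?_) (ev_tendsto _ mus_tendsto), SS_isSqrt,
    ⟨Pool.Agent.Y603.DW.isometric, fun T E hE hET hpos =>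
      Pool.Agent.Y603.DW.observable_set mus hE hET hpos, fun T hT hT1 u hu => ?_,
      fun T hT => ?_⟩,
    Pool.Agent.Y603.DW.lower, fun α hα => notStable _ ?_⟩
  · exact zero_le_one.trans (ev_ge i)
  · exact zero_le_one.trans (ev_ge i)
  · have := Pool.Agent.Y603.DW.observable_short mus hT hT1 u hu
    rwa [intervalIntegral.integral_of_le hT.le] at this
  · obtain ⟨K, hK, h⟩ := Pool.Agent.Y603.DW.observable_set mus (E := Ioc 0 T) measurableSet_Ioc
      Ioc_subset_Icc_self (by simp [hT])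
    refine ⟨K, hK, fun u hu => ?_⟩
    rw [intervalIntegral.integral_of_le hT.le]
    exact h u hu
  · have h1 : Tendsto (fun t : ℝ => t ^ (-(α - 1 / 2))) atTop (𝓝 0) :=
      tendsto_rpow_neg_atTop (by linarith)
    refine h1.congr' ?_
    filter_upwards [eventually_gt_atTop 0] with t ht
    rw [Real.sqrt_eq_rpow, ← Real.rpow_add ht]
    congr 1
    ring

end Pool.Agent.Results.MP_4ccfbf_an.EveryTimeSet
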